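import Pool.Agent.K1H34.HYS.Stm

/-!
Piece RND of the project HYS: rounding of a fractional assignment by linear algebra.
-/

set_option autoImplicit false
open Classical Finset

namespace Pool.Agent.K1H67.HYS

open Pool.Agent.K1H34.HYS

theorem exists_ker {ι κ : Type} (F : Finset ι) (K : Finset κ) (S : κ → ι → Prop)
    (h : K.card < F.card) :
    ∃ δ : ι → ℝ, (∀ x, x ∉ F → δ x = 0) ∧ (∃ x ∈ F, δ x ≠ 0) ∧
      ∀ k ∈ K, ∑ x ∈ F.filter (S k), δ x = 0 := by
  let L : (F → ℝ) →ₗ[ℝ] (K → ℝ) :=
    LinearMap.pi (fun k : K => ∑ x ∈ (univ : Finset F).filter (fun x : F => S k.1 x.1),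
      LinearMap.proj (R := ℝ) (φ := fun _ : F => ℝ) x)
  have hlt : Module.finrank ℝ (K → ℝ) < Module.finrank ℝ (F → ℝ) := by
    rw [Module.finrank_fintype_fun_eq_card, Module.finrank_fintype_fun_eq_card,
      Fintype.card_coe, Fintype.card_coe]
    exact h
  have hker := LinearMap.ker_ne_bot_of_finrank_lt (f := L) hlt
  obtain ⟨v, hv, hne⟩ := (Submodule.ne_bot_iff _).1 hker
  refine ⟨fun x => if hx : x ∈ F then v ⟨x, hx⟩ else 0, ?_, ?_, ?_⟩
  · intro x hx
    simp [hx]
  · by_contra hcon
    push Not at hcon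
    apply hne
    ext ⟨x, hx⟩
    have := hcon x hx
    simpa [hx] using this
  · intro k hk
    have h1 : L v ⟨k, hk⟩ = 0 := by
      rw [LinearMap.mem_ker.1 hv]; rfl
    have h2 : L v ⟨k, hk⟩ = ∑ x : F, (if S k x.1 then v x else 0) := by
      simp only [L, LinearMap.pi_apply, LinearMap.sum_apply, LinearMap.proj_apply]
      rw [Finset.sum_filter]
    rw [h2] at h1
    rw [Finset.sum_filter, ← Finset.sum_coe_sort F]
    refine Eq.trans ?_ h1
    refine Finset.sum_congr rfl fun x _ => ?_
    simp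

/-- the invariant -/
structure Inv {E J : Type} [Fintype E] [Fintype J] {M : ℕ} (A : E → Finset J)
    (w0 : E → Fin M → ℝ) (T : J → Fin M → ℝ) (w : E → Fin M → ℝ) : Prop where
  nn : ∀ e m, 0 ≤ w e m
  row : ∀ e, ∑ m, w e m = 1
  supp : ∀ e m, 0 < w e m → 0 < w0 e m
  pair : ∀ j m, (∑ e ∈ univ.filter (fun e => j ∈ A e), w e m ≤ T j m) ∨
    ((univ.filter (fun e => j ∈ A e ∧ 0 < w e m)).card : ℝ) < T j m + 4

/-- the fractional entries -/
noncomputable def Fr {E : Type} [Fintype E] {M : ℕ} (w : E → Fin M → ℝ) : Finset (E × Fin M) :=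
  univ.filter (fun x => 0 < w x.1 x.2 ∧ w x.1 x.2 < 1)

theorem mem_Fr {E : Type} [Fintype E] {M : ℕ} (w : E → Fin M → ℝ) (e : E) (m : Fin M) :
    (e, m) ∈ Fr w ↔ 0 < w e m ∧ w e m < 1 := by
  simp [Fr]

section

variable {E J : Type} [Fintype E] [Fintype J] {M : ℕ} {A : E → Finset J}
    {w0 : E → Fin M → ℝ} {T : J → Fin M → ℝ} {w : E → Fin M → ℝ}

theorem Inv.le_one (h : Inv A w0 T w) (e : E) (m : Fin M) : w e m ≤ 1 := by
  rw [← h.row e]
  exact Finset.single_le_sum (f := fun m => w e m) (fun m _ => h.nn e m) (Finset.mem_univ m)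

/-- a row with a fractional entry has two of them -/
theorem Inv.two_frac (h : Inv A w0 T w) (e : E) (m : Fin M) (hm : (e, m) ∈ Fr w) :
    2 ≤ ((Fr w).filter (fun x => x.1 = e)).card := by
  rw [mem_Fr] at hm
  by_contra hcon
  have h1 : ∃ m', m' ≠ m ∧ (e, m') ∈ Fr w := by
    by_contra hc
    push Not at hc
    have h2 : ∀ m' ∈ (univ : Finset (Fin M)).erase m, w e m' = 0 := by
      intro m' hm'
      have hne := Finset.ne_of_mem_erase hm'
      have h3 := hc m' hne
      rw [mem_Fr] at h3
      by_contra h4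
      have h5 : 0 < w e m' := lt_of_le_of_ne (h.nn e m') (Ne.symm h4)
      have h6 : 1 ≤ w e m' := by
        by_contra h7
        exact h3 ⟨h5, not_le.1 h7⟩
      have h8 : w e m + w e m' ≤ ∑ m, w e m := by
        rw [← Finset.add_sum_erase _ _ (Finset.mem_univ m)]
        have := Finset.single_le_sum (f := fun m => w e m) (s := univ.erase m)
          (fun m _ => h.nn e m) hm'
        linarith
      rw [h.row e] at h8
      linarith [hm.1]
    have h3 := h.row e
    rw [← Finset.add_sum_erase _ _ (Finset.mem_univ m), Finset.sum_eq_zero h2] at h3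
    linarith [hm.2]
  obtain ⟨m', hne, hm'⟩ := h1
  apply hcon
  have h2 : ({(e, m), (e, m')} : Finset (E × Fin M)) ⊆ (Fr w).filter (fun x => x.1 = e) := by
    intro x hx
    simp only [Finset.mem_insert, Finset.mem_singleton] at hx
    rw [Finset.mem_filter]
    rcases hx with rfl | rfl
    · exact ⟨(mem_Fr _ _ _).2 hm, rfl⟩
    · exact ⟨hm', rfl⟩
  have h3 := Finset.card_le_card h2
  rw [Finset.card_pair (by
    intro h4
    exact hne (Prod.mk.inj h4).2.symm)] at h3
  exact h3

theorem inactive_count (h : Inv A w0 T w) (j : J) (m : Fin M)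
    (hc : (univ.filter (fun e => j ∈ A e ∧ (e, m) ∈ Fr w)).card ≤ 4) :
    ((univ.filter (fun e => j ∈ A e ∧ 0 < w e m)).card : ℝ) < T j m + 4 := by
  rcases h.pair j m with h1 | h1
  · set P := univ.filter (fun e => j ∈ A e ∧ 0 < w e m) with hP
    set Q := univ.filter (fun e => j ∈ A e ∧ (e, m) ∈ Fr w) with hQ
    have h2 : (P.card : ℝ) = ∑ e ∈ P, w e m + ∑ e ∈ P, (1 - w e m) := by
      rw [← Finset.sum_add_distrib]
      simp
    have h3 : ∑ e ∈ P, w e m ≤ ∑ e ∈ univ.filter (fun e => j ∈ A e), w e m := by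
      apply Finset.sum_le_sum_of_subset_of_nonneg
      · intro e he
        simp only [hP, Finset.mem_filter, Finset.mem_univ, true_and] at he ⊢
        exact he.1
      · intro e _ _
        exact h.nn e m
    have hQP : Q ⊆ P := by
      intro e he
      simp only [hP, hQ, Finset.mem_filter, Finset.mem_univ, true_and, mem_Fr] at he ⊢
      exact ⟨he.1, he.2.1⟩
    have h4 : ∑ e ∈ P, (1 - w e m) = ∑ e ∈ Q, (1 - w e m) := by
      symm
      apply Finset.sum_subset hQP
      intro e he he'
      simp only [hP, hQ, Finset.mem_filter, Finset.mem_univ, true_and, mem_Fr] at he he'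
      have : ¬ w e m < 1 := fun h5 => he' ⟨he.1, he.2, h5⟩
      have h6 := h.le_one e m
      linarith [not_lt.1 this]
    have h5 : ∑ e ∈ Q, (1 - w e m) < 4 := by
      rcases Q.eq_empty_or_nonempty with h6 | h6
      · rw [h6]; norm_num
      · have h7 : ∑ e ∈ Q, (1 - w e m) < ∑ e ∈ Q, (1 : ℝ) := by
          apply Finset.sum_lt_sum_of_nonempty h6
          intro e he
          simp only [hQ, Finset.mem_filter, Finset.mem_univ, true_and, mem_Fr] at he
          linarith [he.2.1]
        have h8 : ∑ e ∈ Q, (1 : ℝ) = Q.card := by simp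
        have h9 : (Q.card : ℝ) ≤ 4 := by exact_mod_cast hc
        linarith
    rw [h2, h4]
    linarith
  · exact h1

/-- one step -/
theorem step (hA : ∀ e, (A e).card ≤ 2) (h : Inv A w0 T w) (hF : (Fr w).Nonempty) :
    ∃ w', Inv A w0 T w' ∧ (Fr w').card < (Fr w).card := by
  set F := Fr w with hFdef
  set AR : Finset E := F.image Prod.fst with hAR
  set AP : Finset (J × Fin M) := univ.filter
    (fun q => 5 ≤ (univ.filter (fun e => q.1 ∈ A e ∧ (e, q.2) ∈ F)).card) with hAP
  have hR : 2 * AR.card ≤ F.card := by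
    have h1 : F.card = ∑ e ∈ AR, (F.filter (fun x => x.1 = e)).card :=
      Finset.card_eq_sum_card_fiberwise (fun x hx => Finset.mem_image_of_mem _ hx)
    rw [h1, mul_comm, ← smul_eq_mul]
    apply Finset.card_nsmul_le_sum
    intro e he
    rw [hAR, Finset.mem_image] at he
    obtain ⟨⟨e', m⟩, hx, rfl⟩ := he
    exact h.two_frac e' m hx
  have hPc : 5 * AP.card ≤ 2 * F.card := by
    have h1 : 5 * AP.card ≤ ∑ q ∈ AP, (univ.filter (fun e => q.1 ∈ A e ∧ (e, q.2) ∈ F)).card := by
      rw [mul_comm, ← smul_eq_mul]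
      apply Finset.card_nsmul_le_sum
      intro q hq
      rw [hAP, Finset.mem_filter] at hq
      exact hq.2
    have h2 : ∑ q ∈ AP, (univ.filter (fun e => q.1 ∈ A e ∧ (e, q.2) ∈ F)).card ≤
        ∑ x ∈ F, (A x.1).card := by
      have h3 : ∀ q ∈ AP, (univ.filter (fun e => q.1 ∈ A e ∧ (e, q.2) ∈ F)).card ≤
          (F.filter (fun x => q.1 ∈ A x.1 ∧ x.2 = q.2)).card := by
        intro q _
        apply Finset.card_le_card_of_injOn (fun e => (e, q.2))
        · intro e he
          simp only [Finset.coe_filter, Finset.mem_univ, true_and, Set.mem_ofPred_eq] at he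
          simp only [Finset.coe_filter, Set.mem_ofPred_eq, and_true]
          exact ⟨he.2, he.1⟩
        · intro e _ e' _ hee
          exact (Prod.mk.inj hee).1
      refine (Finset.sum_le_sum h3).trans ?_
      have h4 : ∀ x ∈ F, (AP.filter (fun q => q.1 ∈ A x.1 ∧ x.2 = q.2)).card ≤ (A x.1).card := by
        intro x _
        apply Finset.card_le_card_of_injOn Prod.fst
        · intro q hq
          simp only [Finset.coe_filter, Set.mem_ofPred_eq] at hq
          exact hq.2.1
        · intro q hq q' hq' hqq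
          simp only [Finset.coe_filter, Set.mem_ofPred_eq] at hq hq'
          exact Prod.ext hqq (hq.2.2.symm.trans hq'.2.2)
      refine le_trans (le_of_eq ?_) (Finset.sum_le_sum h4)
      simp only [Finset.card_filter]
      exact Finset.sum_comm
    have h5 : ∑ x ∈ F, (A x.1).card ≤ ∑ _x ∈ F, 2 := Finset.sum_le_sum fun x _ => hA x.1
    rw [Finset.sum_const, smul_eq_mul] at h5
    omega
  have hFpos : 0 < F.card := hF.card_pos
  obtain ⟨δ, hδ0, ⟨x₁, hx₁, hne⟩, hker⟩ := exists_ker F (AR.disjSum AP)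
    (fun k x => Sum.elim (fun e => x.1 = e) (fun q => q.1 ∈ A x.1 ∧ x.2 = q.2) k)
    (by rw [Finset.card_disjSum]; omega)
  -- row sums
  have hrow : ∀ e, ∑ m, δ (e, m) = 0 := by
    intro e
    by_cases he : e ∈ AR
    · have h1 := hker (Sum.inl e) (Finset.inl_mem_disjSum.2 he)
      simp only [Sum.elim_inl] at h1
      rw [← h1]
      symm
      have h2 : F.filter (fun x => x.1 = e) ⊆ (univ : Finset (Fin M)).image (fun m => (e, m)) := by
        intro x hx
        rw [Finset.mem_filter] at hx
        rw [Finset.mem_image]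
        exact ⟨x.2, Finset.mem_univ _, by rw [← hx.2]⟩
      rw [Finset.sum_subset h2, Finset.sum_image]
      · intro a _ b _ hab
        exact (Prod.mk.inj hab).2
      · intro x hx hx'
        rw [Finset.mem_image] at hx
        obtain ⟨m, -, rfl⟩ := hx
        apply hδ0
        intro h3
        exact hx' (Finset.mem_filter.2 ⟨h3, rfl⟩)
    · apply Finset.sum_eq_zero
      intro m _
      apply hδ0
      intro h3
      exact he (Finset.mem_image.2 ⟨(e, m), h3, rfl⟩)
  -- sums of the active pairs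
  have hpair : ∀ j m, (j, m) ∈ AP → ∑ e ∈ univ.filter (fun e => j ∈ A e), δ (e, m) = 0 := by
    intro j m hjm
    have h1 := hker (Sum.inr (j, m)) (Finset.inr_mem_disjSum.2 hjm)
    simp only [Sum.elim_inr] at h1
    rw [← h1]
    symm
    have h2 : F.filter (fun x => j ∈ A x.1 ∧ x.2 = m) ⊆
        (univ.filter (fun e => j ∈ A e)).image (fun e => (e, m)) := by
      intro x hx
      rw [Finset.mem_filter] at hx
      rw [Finset.mem_image]
      exact ⟨x.1, Finset.mem_filter.2 ⟨Finset.mem_univ _, hx.2.1⟩, by rw [← hx.2.2]⟩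
    rw [Finset.sum_subset h2, Finset.sum_image]
    · intro a _ b _ hab
      exact (Prod.mk.inj hab).1
    · intro x hx hx'
      rw [Finset.mem_image] at hx
      obtain ⟨e, he, rfl⟩ := hx
      rw [Finset.mem_filter] at he
      apply hδ0
      intro h3
      exact hx' (Finset.mem_filter.2 ⟨h3, he.2, rfl⟩)
  -- a negative entry
  have hneg : (F.filter (fun x => δ x < 0)).Nonempty := by
    by_contra hcon
    rw [Finset.not_nonempty_iff_eq_empty, Finset.filter_eq_empty_iff] at hcon
    have h1 : ∀ m, 0 ≤ δ (x₁.1, m) := by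
      intro m
      by_cases hm : (x₁.1, m) ∈ F
      · exact not_lt.1 (hcon hm)
      · rw [hδ0 _ hm]
    have h2 := (Finset.sum_eq_zero_iff_of_nonneg (fun m _ => h1 m)).1 (hrow x₁.1) x₁.2
      (Finset.mem_univ _)
    exact hne h2
  obtain ⟨x₀, hx₀, hmin⟩ := Finset.exists_min_image _ (fun x => w x.1 x.2 / (- δ x)) hneg
  rw [Finset.mem_filter] at hx₀
  set lam := w x₀.1 x₀.2 / (- δ x₀) with hlam
  have hFpos' : ∀ x ∈ F, 0 < w x.1 x.2 ∧ w x.1 x.2 < 1 := by
    intro x hx
    exact (mem_Fr w x.1 x.2).1 hx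
  have hlam0 : 0 < lam := div_pos (hFpos' x₀ hx₀.1).1 (by linarith [hx₀.2])
  set w' : E → Fin M → ℝ := fun e m => w e m + lam * δ (e, m) with hw'
  have hx₀' : w' x₀.1 x₀.2 = 0 := by
    simp only [hw']
    have h1 : δ x₀ ≠ 0 := hx₀.2.ne
    change w x₀.1 x₀.2 + lam * δ x₀ = 0
    rw [hlam]
    field_simp
    ring
  have hnn : ∀ e m, 0 ≤ w' e m := by
    intro e m
    simp only [hw']
    by_cases hx : (e, m) ∈ F
    · by_cases hd : δ (e, m) < 0
      · have h1 := hmin (e, m) (Finset.mem_filter.2 ⟨hx, hd⟩)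
        rw [le_div_iff₀ (by linarith)] at h1
        linarith
      · have h1 := h.nn e m
        have h2 := mul_nonneg hlam0.le (not_lt.1 hd)
        linarith
    · rw [hδ0 _ hx]
      simpa using h.nn e m
  have hsupp : ∀ e m, 0 < w' e m → 0 < w e m := by
    intro e m hp
    by_cases hx : (e, m) ∈ F
    · exact (hFpos' _ hx).1
    · simp only [hw'] at hp
      rw [hδ0 _ hx] at hp
      simpa using hp
  have hInv : Inv A w0 T w' := by
    refine ⟨hnn, ?_, fun e m hp => h.supp e m (hsupp e m hp), ?_⟩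
    · intro e
      simp only [hw']
      rw [Finset.sum_add_distrib, ← Finset.mul_sum, hrow e, h.row e]
      ring
    · intro j m
      have hle : ((univ.filter (fun e => j ∈ A e ∧ 0 < w' e m)).card : ℝ) ≤
          ((univ.filter (fun e => j ∈ A e ∧ 0 < w e m)).card : ℝ) := by
        have : univ.filter (fun e => j ∈ A e ∧ 0 < w' e m) ⊆
            univ.filter (fun e => j ∈ A e ∧ 0 < w e m) := by
          intro e he
          rw [Finset.mem_filter] at he ⊢
          exact ⟨he.1, he.2.1, hsupp e m he.2.2⟩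
        exact_mod_cast Finset.card_le_card this
      by_cases hq : (j, m) ∈ AP
      · rcases h.pair j m with h1 | h1
        · left
          simp only [hw']
          rw [Finset.sum_add_distrib, ← Finset.mul_sum, hpair j m hq]
          linarith
        · right
          exact lt_of_le_of_lt hle h1
      · right
        refine lt_of_le_of_lt hle (inactive_count h j m ?_)
        have h5 : ¬ 5 ≤ (univ.filter (fun e => j ∈ A e ∧ (e, m) ∈ F)).card :=
          fun h6 => hq (Finset.mem_filter.2 ⟨Finset.mem_univ _, h6⟩)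
        change (univ.filter (fun e => j ∈ A e ∧ (e, m) ∈ F)).card ≤ 4
        omega
  refine ⟨w', hInv, ?_⟩
  have hsub : Fr w' ⊆ F.erase x₀ := by
    rintro ⟨e, m⟩ hx
    rw [mem_Fr] at hx
    rw [Finset.mem_erase]
    refine ⟨?_, ?_⟩
    · rintro h1
      have h2 : w' e m = 0 := by
        rw [← h1] at hx₀'
        exact hx₀'
      linarith [hx.1]
    · by_contra h1
      have h2 : w' e m = w e m := by
        simp only [hw']
        rw [hδ0 _ h1]
        ring
      rw [h2] at hx
      exact h1 ((mem_Fr w e m).2 hx)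
  refine lt_of_le_of_lt (Finset.card_le_card hsub) ?_
  rw [Finset.card_erase_of_mem hx₀.1]
  omega

end

theorem t_RND : S_RND := by
  intro E J _ _ M A w0 T hA hnn hrow hT
  have key : ∀ (N : ℕ) (w : E → Fin M → ℝ), Inv A w0 T w → (Fr w).card ≤ N →
      ∃ w', Inv A w0 T w' ∧ Fr w' = ∅ := by
    intro N
    induction N with
    | zero =>
      intro w hw hc
      exact ⟨w, hw, Finset.card_eq_zero.1 (Nat.le_zero.1 hc)⟩
    | succ N ih =>
      intro w hw hc
      by_cases h0 : (Fr w).Nonempty
      · obtain ⟨w', hw', hlt⟩ := step hA hw h0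
        exact ih w' hw' (by omega)
      · exact ⟨w, hw, Finset.not_nonempty_iff_eq_empty.1 h0⟩
  have h0 : Inv A w0 T w0 := ⟨hnn, hrow, fun _ _ h => h, fun j m => Or.inl (hT j m)⟩
  obtain ⟨w, hw, hF⟩ := key _ w0 h0 le_rfl
  have h01 : ∀ e m, 0 < w e m → w e m = 1 := by
    intro e m hp
    have h1 : (e, m) ∉ Fr w := by rw [hF]; exact Finset.notMem_empty _
    rw [mem_Fr] at h1
    have h2 : ¬ w e m < 1 := fun h3 => h1 ⟨hp, h3⟩
    exact le_antisymm (hw.le_one e m) (not_lt.1 h2)
  have hex : ∀ e, ∃ m, 0 < w e m := by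
    intro e
    by_contra hcon
    push Not at hcon
    have h1 : ∑ m, w e m ≤ 0 := Finset.sum_nonpos fun m _ => hcon m
    rw [hw.row e] at h1
    linarith
  choose a ha using hex
  refine ⟨a, fun e => hw.supp e _ (ha e), ?_⟩
  intro j m
  have hsub : univ.filter (fun e => j ∈ A e ∧ a e = m) ⊆
      univ.filter (fun e => j ∈ A e ∧ 0 < w e m) := by
    intro e he
    rw [Finset.mem_filter] at he ⊢
    refine ⟨he.1, he.2.1, ?_⟩
    rw [← he.2.2]
    exact ha e
  rcases hw.pair j m with h1 | h1
  · have h2 : ((univ.filter (fun e => j ∈ A e ∧ a e = m)).card : ℝ) =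
        ∑ e ∈ univ.filter (fun e => j ∈ A e ∧ a e = m), w e m := by
      rw [Finset.card_eq_sum_ones, Nat.cast_sum]
      apply Finset.sum_congr rfl
      intro e he
      rw [Finset.mem_filter] at he
      rw [← he.2.2, h01 e _ (ha e)]
      simp
    have h3 : ∑ e ∈ univ.filter (fun e => j ∈ A e ∧ a e = m), w e m ≤
        ∑ e ∈ univ.filter (fun e => j ∈ A e), w e m := by
      apply Finset.sum_le_sum_of_subset_of_nonneg
      · intro e he
        rw [Finset.mem_filter] at he ⊢
        exact ⟨he.1, he.2.1⟩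
      · intro e _ _
        exact hw.nn e m
    rw [h2]
    linarith
  · have h2 : ((univ.filter (fun e => j ∈ A e ∧ a e = m)).card : ℝ) ≤
        ((univ.filter (fun e => j ∈ A e ∧ 0 < w e m)).card : ℝ) := by
      exact_mod_cast Finset.card_le_card hsub
    linarith

end Pool.Agent.K1H67.HYS
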